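import Pool.Agent.H49.CL.Targets

/-! Row CMN of `cl_modules`: images with the least number of classes. -/

set_option autoImplicit false

namespace Pool.Agent.H67.CL

open Pool.Agent.H68.BP Pool.Agent.H58.SF Pool.Agent.H53.NR
open Pool.Agent.H57.AR (tp ty Ty)
open Pool.Agent.H57.EQ (Cx)
open Pool.Agent.H44.KR (Tyi TpOn)
open Pool.Agent.H72.CH Pool.Agent.H49.CL
open Function

theorem pf_CMN : T_CMN := by
  classical
  intro V ρ σ 𝔹 m lv 𝔸 i R hV hT hR n G
  obtain ⟨e, he, hlv, htp⟩ := hR.e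
  have hne : ∃ k, ∃ f : Fin n → V, Cx 𝔸 (fun _ : Unit => G) f ∧ ncl lv i f Set.univ = k :=
    ⟨_, G, fun l z h => h (), rfl⟩
  obtain ⟨f, hf, hfk⟩ := Nat.find_spec hne
  have hmin : ∀ g : Fin n → V, Cx 𝔸 (fun _ : Unit => G) g →
      ncl lv i f Set.univ ≤ ncl lv i g Set.univ := by
    intro g hg
    rw [hfk]
    exact Nat.find_min' hne ⟨g, hg, rfl⟩
  have hcl : ncl lv i (fun a => e (f a)) Set.univ = ncl lv i f Set.univ := by
    unfold ncl
    simp only [hlv]
  have hz : Cx 𝔸 (fun _ : Unit => G) (fun a => e (f a)) :=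
    fun l w h => he l _ (hf l w h)
  refine ⟨fun a => e (f a), hz, fun a b => htp _ _, ?_⟩
  intro g z' hg hz'
  rw [hcl]
  refine hmin _ fun l w h => hg l _ ?_
  exact hT l (fun a => e (f (w a))) (fun a => z' (w a)) (hz l w h)
    (Prod.ext (funext fun a => funext fun b =>
        congrFun (congrFun (congrArg Prod.fst hz') (w a)) (w b))
      (funext fun l => funext fun u => congrFun (congrFun (congrArg Prod.snd hz') l)
        (fun i => w (u i))))

end Pool.Agent.H67.CL
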